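import Pool.Agent.R630.UI.Core

/-!
# A bounded torsion group which is not a ui-group (MP_d8de41_al, Q1)
-/

set_option autoImplicit false

open scoped commutatorElement

namespace Pool.Agent.Results.MP_d8de41_al.BoundedTorsionNotUi

universe u

/-- The answer to Q1 is yes: there is a group `H` with `h ^ 4 = 1` for all `h`, countable and
metabelian, which is not a ui-group, that is, which is not a homomorphic image of an ultraproduct
of a sequence of groups for a nonprincipal ultrafilter on `ℕ`. Moreover `H` is not even a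
homomorphic image of a reduced product of a sequence of groups modulo the finitely supported
sequences. -/
theorem result : ∃ (H : Type) (_ : Group H),
    (∃ n : ℕ, 0 < n ∧ ∀ h : H, h ^ n = 1) ∧
    ¬ Pool.Agent.R630.UI.IsUi.{u} H ∧
    (∀ h : H, h ^ 4 = 1) ∧ Countable H ∧
    (∀ a b c d : H, ⁅a, b⁆ * ⁅c, d⁆ = ⁅c, d⁆ * ⁅a, b⁆) ∧
    (∀ (G : ℕ → Type u) [∀ i, Group (G i)] (ψ : (∀ i, G i) →* H),
      (∀ x : ∀ i, G i, {i | x i ≠ 1}.Finite → ψ x = 1) → ¬ Function.Surjective ψ) :=
  ⟨Pool.Agent.R630.UI.K, inferInstance, ⟨4, by norm_num, Pool.Agent.R630.UI.K.pow_four⟩,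
    Pool.Agent.R630.UI.K.not_isUi, Pool.Agent.R630.UI.K.pow_four,
    Pool.Agent.R630.UI.K.countable, Pool.Agent.R630.UI.K.comm_comm,
    fun _ _ ψ h => Pool.Agent.R630.UI.K.not_image ψ h⟩

end Pool.Agent.Results.MP_d8de41_al.BoundedTorsionNotUi
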